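import Mathlib
import Pool.Agent.MGF.Main

set_option autoImplicit false

/-!
# MP_1b96da_co: the case `s = 4`, for all `k`, without any connectivity assumption

A digraph on `4k` vertices all of whose degrees are at least `2(s-1)k - 1 = 6k - 1`, `s = 4`, splits
into `k` parts with four vertices, each of which contains every tournament on four vertices.

Idea of the proof. The missing arcs form a multigraph on `4k` vertices of maximum degree at most
`2k - 1`; we show that it can be partitioned into `k` sets of four vertices inducing simple linear
forests (every oriented path on four vertices is contained in every tournament on four vertices).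
Induction on `k`: after adding edges, take a cut `(X, Y)` with both parts non-empty which maximises
`2 e(X,Y) - |X||Y|`. The degrees inside a part with `4p + r` vertices are then at most `2p - 1` if
`r ≤ 1` and at most `2p` otherwise. If `r = 0` both parts are partitioned by induction. Otherwise
one crossing set is removed first; it is provided by a lemma on pairs: if `a`, `b` are not adjacent
and the other vertices are divided into `C` and `D`, then `{a, b, c, d}` is good for some `c ∈ C`,
`d ∈ D`, unless the vertices of `C`, or those of `D`, are joined to `{a, b}` by two edges on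
average.
-/

namespace Pool.Agent.Results.MP_1b96da_co.FourVertices

open Classical

/-- `T` is a tournament: no loops, and exactly one arc between any two distinct vertices. -/
def IsTournament {W : Type*} (T : Digraph W) : Prop :=
  (∀ a, ¬ T.Adj a a) ∧ ∀ a b, a ≠ b → (T.Adj a b ↔ ¬ T.Adj b a)

/-- The vertices in `A` carry a (not necessarily induced) copy of `T` in `D`. -/
def Contains {V W : Type*} (D : Digraph V) (A : Finset V) (T : Digraph W) : Prop :=
  ∃ f : W → V, Function.Injective f ∧ (∀ a, f a ∈ A) ∧ ∀ a b, T.Adj a b → D.Adj (f a) (f b)

/-- Every loopless digraph on `4k` vertices with all degrees (in + out) at least `2(4-1)k - 1` has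
a partition of its vertex set into `k` parts with four vertices each of which contains every
tournament on four vertices. -/
theorem result (k : ℕ) (V : Type) [Fintype V] (D : Digraph V) (hloop : ∀ v, ¬ D.Adj v v)
    (hV : Fintype.card V = 4 * k)
    (hdeg : ∀ v : V, 2 * ((4 : ℤ) - 1) * (k : ℤ) - 1 ≤
      (((Finset.univ.filter (fun w => D.Adj v w)).card +
        (Finset.univ.filter (fun w => D.Adj w v)).card : ℕ) : ℤ)) :
    ∃ P : Fin k → Finset V, (∀ i, (P i).card = 4) ∧
      (∀ i j, i ≠ j → Disjoint (P i) (P j)) ∧ (∀ v, ∃ i, v ∈ P i) ∧
      ∀ i (T : Digraph (Fin 4)), IsTournament T → Contains D (P i) T := by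
  obtain ⟨P, h1, h2, h3⟩ := Pool.Agent.MGF.four_main k V D hloop hV (fun v => by
    have := hdeg v
    omega)
  refine ⟨P, h1, h2, ?_, fun i T hT => h3 i T hT⟩
  have hc : (Finset.univ.biUnion P).card = Fintype.card V := by
    rw [Finset.card_biUnion (fun i _ j _ hij => h2 i j hij), hV]
    simp [h1, mul_comm]
  intro v
  have hu : Finset.univ.biUnion P = Finset.univ := Finset.card_eq_iff_eq_univ _ |>.1 hc
  have hv : v ∈ Finset.univ.biUnion P := by
    rw [hu]
    exact Finset.mem_univ v
  obtain ⟨i, _, hi⟩ := Finset.mem_biUnion.1 hv
  exact ⟨i, hi⟩

end Pool.Agent.Results.MP_1b96da_co.FourVertices
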