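import Mathlib
import Pool.Agent.MGT.Final

set_option autoImplicit false

/-!
# MP_1b96da_co: the case `s = 3`, for all `k` and all tournaments on three vertices

Part (A): no connectivity is assumed. A digraph on `3k` vertices all of whose degrees are at least
`2(s-1)k - 1 = 4k - 1` either has a partition into triples each of which misses at most one arc,
and hence contains every tournament on three vertices, or its vertex set is the union of two
parts, of sizes not divisible by three, such that no two vertices in different parts are joined by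
arcs in both directions.
Part (B): if moreover the digraph is strongly 2-connected, it contains vertex-disjoint copies of
any `k` given tournaments on three vertices (question Q1 with `s = 3`).

Idea of the proof. Let `e(u, v)` be the number of missing arcs between `u` and `v`; all degrees of
this multigraph are at most `2k - 1`. Take a partition `X, Y` of the vertex set maximising
`3 e(X, Y) - 2 |X| |Y|`. Then neither side is the union of two completely joined parts, and if
`3` divides `|X|` induction on `k` finishes on both sides; if the sizes are `3p + 2`, `3q + 1`, one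
only has to cut off one crossing triple, which is found by counting.
-/

namespace Pool.Agent.Results.MP_1b96da_co.TriangleFactors

open Classical
open Pool.Agent

/-- `T` is a tournament: no loops, and exactly one arc between any two distinct vertices. -/
def IsTournament {W : Type*} (T : Digraph W) : Prop :=
  (∀ a, ¬ T.Adj a a) ∧ ∀ a b, a ≠ b → (T.Adj a b ↔ ¬ T.Adj b a)

/-- The vertices in `A` carry a (not necessarily induced) copy of `T` in `D`. -/
def Contains {V W : Type*} (D : Digraph V) (A : Finset V) (T : Digraph W) : Prop :=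
  ∃ f : W → V, Function.Injective f ∧ (∀ a, f a ∈ A) ∧ ∀ a b, T.Adj a b → D.Adj (f a) (f b)

/-- The case `s = 3` of Q1, and the structure theorem behind it. -/
theorem result (k : ℕ) (D : Digraph (Fin (3 * k))) (hloop : ∀ v, ¬ D.Adj v v)
    (hdeg : ∀ v : Fin (3 * k), 2 * ((3 : ℤ) - 1) * (k : ℤ) - 1 ≤
      (((Finset.univ.filter (fun w => D.Adj v w)).card +
        (Finset.univ.filter (fun w => D.Adj w v)).card : ℕ) : ℤ)) :
    ((∃ P : Fin k → Finset (Fin (3 * k)), (∀ i, (P i).card = 3) ∧
        (∀ i j, i ≠ j → Disjoint (P i) (P j)) ∧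
        (∀ i, ((P i ×ˢ P i).filter (fun p => p.1 ≠ p.2 ∧ ¬ D.Adj p.1 p.2)).card ≤ 1) ∧
        ∀ i, ∀ T : Digraph (Fin 3), IsTournament T → Contains D (P i) T) ∨
      (∃ X : Finset (Fin (3 * k)), ¬ 3 ∣ X.card ∧
        ∀ x ∈ X, ∀ y, y ∉ X → ¬ (D.Adj x y ∧ D.Adj y x))) ∧
    ((∀ x u v : Fin (3 * k), u ≠ x → v ≠ x →
        Relation.ReflTransGen (fun a b => a ≠ x ∧ b ≠ x ∧ D.Adj a b) u v) →
      ∀ T : Fin k → Digraph (Fin 3), (∀ i, IsTournament (T i)) →
        ∃ f : Fin k × Fin 3 → Fin (3 * k), Function.Injective f ∧
          ∀ i a b, (T i).Adj a b → D.Adj (f (i, a)) (f (i, b))) := by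
  refine ⟨?_, ?_⟩
  · have hd : ∀ v ∈ (Finset.univ : Finset (Fin (3 * k))),
        MGT.dg (MGT.mis D) Finset.univ v + 1 ≤ 2 * k := by
      intro v _
      have h1 := MGT.p_MISD (Fin (3 * k)) D v hloop
      have h2 := hdeg v
      have h3 := v.2
      rw [Fintype.card_fin] at h1
      push_cast at h2
      omega
    have hsym := (MGT.p_MIS (Fin (3 * k)) D).1
    by_cases hB : MGT.Barrier (MGT.mis D) Finset.univ
    · right
      obtain ⟨A, B, ⟨-, -, hdis, hun, hc⟩, h3⟩ := hB
      refine ⟨A, h3, ?_⟩
      rintro x hx y hy ⟨h1, h2⟩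
      have hyB : y ∈ B := by
        have hy' : y ∈ A ∪ B := hun ▸ Finset.mem_univ y
        exact (Finset.mem_union.1 hy').resolve_left hy
      have hm := hc x hx y hyB
      have hxy : x ≠ y := fun h => hy (h ▸ hx)
      simp [MGT.mis, hxy, h1, h2] at hm
    · left
      have hF := MGT.mg (Fin (3 * k)) k (MGT.mis D) Finset.univ hsym (by simp) hd hB
      obtain ⟨P, -, h2, h3⟩ := MGT.fact_parts (ι := Fin k) hF Finset.univ (by simp)
      refine ⟨P, ?_, ?_, ?_, ?_⟩
      · intro i
        obtain ⟨a, b, c, ⟨hab, hac, hbc, -⟩, hP⟩ := h2 i (Finset.mem_univ i)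
        rw [hP]
        exact Finset.card_eq_three.2 ⟨a, b, c, hab, hac, hbc, rfl⟩
      · intro i j hij
        exact h3 i (Finset.mem_univ i) j (Finset.mem_univ j) hij
      · intro i
        obtain ⟨a, b, c, hg, hP⟩ := h2 i (Finset.mem_univ i)
        rw [hP]
        exact MGT.miss_le D a b c hg
      · intro i T hT
        obtain ⟨a, b, c, hg, hP⟩ := h2 i (Finset.mem_univ i)
        obtain ⟨g, hg1, hg2, hg3⟩ := (MGT.p_EMB (Fin (3 * k)) D T hT).1 a b c hg
        exact ⟨g, hg1, fun x => hP ▸ hg2 x, hg3⟩
  · intro hconn T hT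
    rcases Nat.eq_zero_or_pos k with hk | hk
    · subst hk
      exact ⟨fun x => Fin.elim0 x.1, fun x => Fin.elim0 x.1, fun i => Fin.elim0 i⟩
    · exact MGT.fin k D hloop hk hconn (fun v => by
        have h2 := hdeg v
        push_cast at h2
        omega) T hT

end Pool.Agent.Results.MP_1b96da_co.TriangleFactors
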