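import Mathlib
import Pool.Agent.TDK.Final

set_option autoImplicit false

/-!
# MP_1b96da_co: the case `k = 2`, for all `s`, without any connectivity assumption

A digraph on `2s` vertices all of whose degrees are at least `2(s-1)k - 1`, `k = 2`, splits into two
parts with `s` vertices, each of which contains every tournament on `s` vertices.

Idea of the proof. The missing arcs form a multigraph of maximum degree at most three. After
adding edges and replacing configurations `b' - b = u - w` (a double edge `b u` with distinct
outer neighbours) by a triple edge `b u` and an edge `b' w`, a bisection with the most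
crossing edges, and among these with the fewest vertices of degree two inside their part, has only
paths with at most four vertices inside the parts (no vertex of degree two if `s = 3`). Every
oriented path on four vertices is contained in every tournament on four vertices, and the paths on
three vertices are placed on disjoint transitive triangles.
-/

namespace Pool.Agent.Results.MP_1b96da_co.TwoParts

open Classical

/-- `T` is a tournament: no loops, and exactly one arc between any two distinct vertices. -/
def IsTournament {W : Type*} (T : Digraph W) : Prop :=
  (∀ a, ¬ T.Adj a a) ∧ ∀ a b, a ≠ b → (T.Adj a b ↔ ¬ T.Adj b a)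

/-- The vertices in `A` carry a (not necessarily induced) copy of `T` in `D`. -/
def Contains {V W : Type*} (D : Digraph V) (A : Finset V) (T : Digraph W) : Prop :=
  ∃ f : W → V, Function.Injective f ∧ (∀ a, f a ∈ A) ∧ ∀ a b, T.Adj a b → D.Adj (f a) (f b)

/-- Every loopless digraph on `2s` vertices with all degrees (in + out) at least `2(s-1)·2 - 1` has
a partition of its vertex set into two parts with `s` vertices each of which contains every
tournament on `s` vertices. -/
theorem result (s : ℕ) (V : Type) [Fintype V] (D : Digraph V) (hloop : ∀ v, ¬ D.Adj v v)
    (hV : Fintype.card V = 2 * s)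
    (hdeg : ∀ v : V, 2 * ((s : ℤ) - 1) * 2 - 1 ≤
      (((Finset.univ.filter (fun w => D.Adj v w)).card +
        (Finset.univ.filter (fun w => D.Adj w v)).card : ℕ) : ℤ)) :
    ∃ A : Finset V, A.card = s ∧ Aᶜ.card = s ∧
      ∀ T : Digraph (Fin s), IsTournament T → Contains D A T ∧ Contains D Aᶜ T := by
  obtain ⟨χ, h1, h2⟩ := Pool.Agent.TDK.main_thm (D := D.Adj) hloop hV (fun v => by
    have := hdeg v
    omega)
  have hc : (Finset.univ.filter (fun x => χ x = true))ᶜ =
      Finset.univ.filter (fun x => χ x = false) := by
    ext x; simp
  refine ⟨Finset.univ.filter (fun x => χ x = true), h1 true, by rw [hc]; exact h1 false, ?_⟩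
  intro T hT
  have hT' : Pool.Agent.TDK.Tour T.Adj := by
    refine ⟨hT.1, fun a b hab => ?_, fun a b hab hba => ?_⟩
    · by_cases h : T.Adj b a
      · exact Or.inr h
      · exact Or.inl ((hT.2 a b hab).2 h)
    · have hne : a ≠ b := by
        rintro rfl
        exact hT.1 _ hab
      exact (hT.2 a b hne).1 hab hba
  rw [hc]
  obtain ⟨f, f1, f2, f3⟩ := h2 true T.Adj hT'
  obtain ⟨g, g1, g2, g3⟩ := h2 false T.Adj hT'
  exact ⟨⟨f, f2, fun a => by simp [f1 a], f3⟩, ⟨g, g2, fun a => by simp [g1 a], g3⟩⟩

end Pool.Agent.Results.MP_1b96da_co.TwoParts
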